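import Mathlib

/-!
Godel numberings with polynomial-time translations, p-invertible functions, paddable sets.
-/

namespace Pool.Agent.Work.MP_caf7e3_lc

/-- A function on binary words is computable in deterministic polynomial time
(multi-stack Turing machines of Mathlib). -/
def PolyTime (f : List Bool → List Bool) : Prop :=
  Nonempty (Turing.TM2ComputableInPolyTime (fun x : List Bool => x) (fun x : List Bool => x) f)

/-- A programming system: the programs are the binary words, and the universal function
`(i, x) ↦ φ i x` is partial recursive. -/
def ProgrammingSystem (φ : List Bool → ℕ →. ℕ) : Prop :=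
  Partrec fun p : List Bool × ℕ => φ p.1 p.2

/-- A Godel numbering: a programming system that contains every partial recursive function and
into which every programming system can be translated by a total recursive function. -/
def GodelNumbering (φ : List Bool → ℕ →. ℕ) : Prop :=
  ProgrammingSystem φ ∧ (∀ f : ℕ →. ℕ, Partrec f → ∃ i, φ i = f) ∧
    ∀ ψ, ProgrammingSystem ψ → ∃ σ : List Bool → List Bool, Computable σ ∧ ∀ i, ψ i = φ (σ i)

/-- The class GNPTime: every Godel numbering can be translated into `φ` in polynomial time. -/
def GNPTime (φ : List Bool → ℕ →. ℕ) : Prop :=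
  GodelNumbering φ ∧
    ∀ ψ, GodelNumbering ψ → ∃ σ : List Bool → List Bool, PolyTime σ ∧ ∀ i, ψ i = φ (σ i)

/-- There is a polynomial-time isomorphism `h` from `ψ` to `φ`, with inverse `k`. -/
def PolyIso (ψ φ : List Bool → ℕ →. ℕ) : Prop :=
  ∃ h k : List Bool → List Bool, PolyTime h ∧ PolyTime k ∧ (∀ i, k (h i) = i) ∧
    (∀ i, h (k i) = i) ∧ ∀ i, ψ i = φ (h i)

end Pool.Agent.Work.MP_caf7e3_lc
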