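import Mathlib
import Pool.Agent.Work.MP_0532f7_lc.Clock

/-!
Polynomial-time functions are primitive recursive.
-/

namespace Pool.Agent.Work.MP_caf7e3_lc

open Pool.Agent.Work.MP_0532f7_lc

open Polynomial

/-- one-register update on a list of registers, keeping the first `m` ones -/
def updL (m : ℕ) (l : List (List Bool)) (r : ℕ) (x : List Bool) : List (List Bool) :=
  (List.range m).map (fun i => if i = r then x else l.getD i [])

theorem updL_getD {m : ℕ} (l : List (List Bool)) (r : ℕ) (x : List Bool) {i : ℕ} (hi : i < m) :
    (updL m l r x).getD i [] = if i = r then x else l.getD i [] := by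
  unfold updL
  rw [List.getD_eq_getElem?_getD, List.getElem?_map, List.getElem?_range hi]
  rfl

theorem primrec_updL (m r : ℕ) : Primrec₂ (fun (l : List (List Bool)) (x : List Bool) =>
    updL m l r x) := by
  unfold updL
  refine Primrec.list_map (Primrec.const _) ?_
  exact Primrec.ite (Primrec.eq.comp Primrec.snd (Primrec.const r))
    (Primrec.snd.comp Primrec.fst)
    ((Primrec.list_getD []).comp (Primrec.fst.comp Primrec.fst) Primrec.snd)

/-- the fuelled interpreter -/
def runL (m : ℕ) : Prog → ℕ → List (List Bool) → List (List Bool)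
  | .skip, _, l => l
  | .push r b, _, l => updL m l r (b :: l.getD r [])
  | .pop r, _, l => updL m l r (l.getD r []).tail
  | .seq p q, n, l => runL m q n (runL m p n l)
  | .cond r a b c, n, l =>
    if (l.getD r []).head? = none then runL m a n l
    else if (l.getD r []).head? = some false then runL m b n l else runL m c n l
  | .loop r p, n, l => (fun l => if (l.getD r []).head? = none then l else runL m p n l)^[n] l

theorem primrec_runL (m : ℕ) (p : Prog) :
    Primrec (fun v : ℕ × List (List Bool) => runL m p v.1 v.2) := by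
  have hget : ∀ r : ℕ, Primrec (fun l : List (List Bool) => l.getD r []) := fun r =>
    (Primrec.list_getD []).comp Primrec.id (Primrec.const r)
  have hhead : ∀ (r : ℕ) (o : Option Bool),
      PrimrecPred (fun v : ℕ × List (List Bool) => (v.2.getD r []).head? = o) := fun r o =>
    Primrec.eq.comp (Primrec.list_head?.comp ((hget r).comp Primrec.snd)) (Primrec.const o)
  induction p with
  | skip => exact Primrec.snd
  | push r b =>
    exact (primrec_updL m r).comp Primrec.snd
      (Primrec.list_cons.comp (Primrec.const b) ((hget r).comp Primrec.snd))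
  | pop r =>
    exact (primrec_updL m r).comp Primrec.snd
      (Primrec.list_tail.comp ((hget r).comp Primrec.snd))
  | seq p q ihp ihq => exact ihq.comp (Primrec.fst.pair ihp)
  | cond r a b c iha ihb ihc =>
    exact Primrec.ite (hhead r none) iha (Primrec.ite (hhead r (some false)) ihb ihc)
  | loop r p ih =>
    have h1 : Primrec₂ (fun (v : ℕ × List (List Bool)) (l : List (List Bool)) =>
        if (l.getD r []).head? = none then l else runL m p v.1 l) := by
      refine Primrec.ite ?_ Primrec.snd (ih.comp ((Primrec.fst.comp Primrec.fst).pair Primrec.snd))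
      exact Primrec.eq.comp (Primrec.list_head?.comp ((hget r).comp Primrec.snd))
        (Primrec.const none)
    exact Primrec.nat_iterate Primrec.fst Primrec.snd h1

/-- one guarded round of a loop -/
def rnd (m r : ℕ) (p : Prog) (n : ℕ) (l : List (List Bool)) : List (List Bool) :=
  if (l.getD r []).head? = none then l else runL m p n l

theorem runL_loop (m r : ℕ) (p : Prog) (n : ℕ) (l : List (List Bool)) :
    runL m (.loop r p) n l = (rnd m r p n)^[n] l := rfl

/-- correctness of the interpreter -/
theorem runL_spec {m : ℕ} {p : Prog} {s s' : Store} {c : ℕ} (h : Run p s s' c) (hp : p.bd m) :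
    (∀ (n : ℕ) (l : List (List Bool)), c ≤ n → (∀ i < m, l.getD i [] = s i) →
      ∀ i < m, (runL m p n l).getD i [] = s' i) ∧
    (∀ (r : ℕ) (q : Prog), p = .loop r q → ∀ (n N : ℕ) (l : List (List Bool)), c ≤ n → c ≤ N →
      (∀ i < m, l.getD i [] = s i) → ∀ i < m, ((rnd m r q n)^[N] l).getD i [] = s' i) := by
  have hloop : ∀ {r : ℕ} {q : Prog} {s s' : Store} {c : ℕ},
      (∀ (n N : ℕ) (l : List (List Bool)), c ≤ n → c ≤ N →
      (∀ i < m, l.getD i [] = s i) → ∀ i < m, ((rnd m r q n)^[N] l).getD i [] = s' i) →
      (∀ (n : ℕ) (l : List (List Bool)), c ≤ n → (∀ i < m, l.getD i [] = s i) →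
      ∀ i < m, (runL m (.loop r q) n l).getD i [] = s' i) ∧
    (∀ (r' : ℕ) (q' : Prog), Prog.loop r q = .loop r' q' → ∀ (n N : ℕ) (l : List (List Bool)),
      c ≤ n → c ≤ N →
      (∀ i < m, l.getD i [] = s i) → ∀ i < m, ((rnd m r' q' n)^[N] l).getD i [] = s' i) := by
    intro r q s s' c h
    refine ⟨fun n l hn hl => ?_, fun r' q' he => ?_⟩
    · rw [runL_loop]; exact h n n l hn hn hl
    · obtain ⟨rfl, rfl⟩ := Prog.loop.inj he
      exact h
  induction h with
  | skip s => exact ⟨fun n l _ hl => hl, fun r q he => by cases he⟩
  | push r b s =>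
    refine ⟨fun n l _ hl i hi => ?_, fun r q he => by cases he⟩
    simp only [runL]
    rw [updL_getD _ _ _ hi, hl r hp]
    unfold upd
    split_ifs
    · rfl
    · exact hl i hi
  | pop r s =>
    refine ⟨fun n l _ hl i hi => ?_, fun r q he => by cases he⟩
    simp only [runL]
    rw [updL_getD _ _ _ hi, hl r hp]
    unfold upd
    split_ifs
    · rfl
    · exact hl i hi
  | seq _ _ ih1 ih2 =>
    refine ⟨fun n l hn hl => ?_, fun r q he => by cases he⟩
    simp only [runL]
    exact (ih2 hp.2).1 n _ (by omega) ((ih1 hp.1).1 n l (by omega) hl)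
  | @condN r a b c s s' k h1 _ ih =>
    refine ⟨fun n l hn hl => ?_, fun r q he => by cases he⟩
    simp only [runL]
    rw [hl r hp.1, if_pos h1]
    exact (ih hp.2.1).1 n l (by omega) hl
  | @condF r a b c s s' k h1 _ ih =>
    refine ⟨fun n l hn hl => ?_, fun r q he => by cases he⟩
    simp only [runL]
    rw [hl r hp.1, h1, if_neg (by simp), if_pos rfl]
    exact (ih hp.2.2.1).1 n l (by omega) hl
  | @condT r a b c s s' k h1 _ ih =>
    refine ⟨fun n l hn hl => ?_, fun r q he => by cases he⟩
    simp only [runL]
    rw [hl r hp.1, h1, if_neg (by simp), if_neg (by simp)]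
    exact (ih hp.2.2.2).1 n l (by omega) hl
  | @loopN r p s h1 =>
    refine hloop (fun n N l _ _ hl => ?_)
    have hfix : ∀ k : ℕ, (rnd m r p n)^[k] l = l := by
      intro k
      induction k with
      | zero => rfl
      | succ k ihk =>
        rw [Function.iterate_succ_apply]
        have : rnd m r p n l = l := by
          unfold rnd
          rw [hl r hp.1, if_pos h1]
        rw [this]; exact ihk
    rw [hfix N]
    exact hl
  | @loopS r p s s1 s2 n1 n2 h1 _ _ ih1 ih2 =>
    refine hloop (fun n N l hn hN hl => ?_)
    have key := (ih1 hp.2).1 n l (by omega) hl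
    obtain ⟨k, rfl⟩ : ∃ k, N = k + 1 := ⟨N - 1, by omega⟩
    rw [Function.iterate_succ_apply]
    have hr : rnd m r p n l = runL m p n l := by
      unfold rnd
      rw [hl r hp.1, if_neg h1]
    rw [hr]
    exact (ih2 hp).2 r p rfl n k _ (by omega) (by omega) key

theorem primrec_pow_const (k : ℕ) : Primrec (fun n : ℕ => n ^ k) := by
  induction k with
  | zero => simpa using Primrec.const 1
  | succ k ih =>
    simp only [pow_succ]
    exact Primrec.nat_mul.comp ih Primrec.id

theorem primrec_eval (P : Polynomial ℕ) : Primrec (fun n : ℕ => P.eval n) := by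
  induction P using Polynomial.induction_on' with
  | add p q hp hq => simp only [eval_add]; exact Primrec.nat_add.comp hp hq
  | monomial k c =>
    simp only [eval_monomial]
    exact Primrec.nat_mul.comp (Primrec.const c) (primrec_pow_const k)

/-- polynomial-time functions are primitive recursive -/
theorem FP.primrec {f : List Bool → List Bool} (hf : FP f) : Primrec f := by
  obtain ⟨p, P, hP⟩ := hf
  obtain ⟨m, hm⟩ := p.exists_bd
  have hm1 : p.bd (m + 1) := Prog.bd_mono (Nat.le_succ m) hm
  have hprim : Primrec (fun x : List Bool =>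
      (runL (m + 1) p (P.eval x.length) [x]).getD 0 []) := by
    refine (Primrec.list_getD []).comp ?_ (Primrec.const 0)
    refine (primrec_runL (m + 1) p).comp (Primrec.pair ((primrec_eval P).comp
      Primrec.list_length) ?_)
    exact Primrec.list_cons.comp Primrec.id (Primrec.const [])
  refine hprim.of_eq (fun x => ?_)
  obtain ⟨c, hc, hrun⟩ := hP x
  have h1 := (runL_spec hrun hm1).1 (P.eval x.length) [x] hc (fun i _ => by
    unfold inp upd
    cases i with
    | zero => simp
    | succ i => simp) 0 (Nat.succ_pos m)
  rw [h1]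
  simp [inp]

end Pool.Agent.Work.MP_caf7e3_lc
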