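import Mathlib
import Pool.Agent.Work.MP_caf7e3_lc.Defs
import Pool.Agent.Work.MP_caf7e3_lc.Prim
import Pool.Agent.Work.MP_0532f7_lc.Enum

/-!
A natural Godel numbering.
-/

namespace Pool.Agent.Work.MP_caf7e3_lc

open Pool.Agent.Work.MP_0532f7_lc Nat.Partrec

theorem primrec_pr : Primrec₂ pr := by
  have h : ∀ x y : List Bool, pr x y =
      x.foldr (fun b acc => true :: b :: acc) (false :: y) := by
    intro x y
    induction x with
    | nil => rfl
    | cons b x ih => simp [pr, ih]
  have h1 : Primrec fun p : List Bool × List Bool =>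
      p.1.foldr (fun b acc => true :: b :: acc) (false :: p.2) := by
    refine Primrec.list_foldr (f := fun p : List Bool × List Bool => p.1)
      (g := fun p : List Bool × List Bool => false :: p.2)
      (h := fun (_ : List Bool × List Bool) (q : Bool × List Bool) => true :: q.1 :: q.2)
      Primrec.fst (Primrec.list_cons.comp (Primrec.const false) Primrec.snd) ?_
    exact (Primrec.list_cons.comp (Primrec.const true)
      (Primrec.list_cons.comp (Primrec.fst.comp Primrec.snd) (Primrec.snd.comp Primrec.snd))).to₂
  exact h1.of_eq fun p => (h p.1 p.2).symm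

theorem primrec_val : Primrec val := by
  have h : ∀ x : List Bool, val x =
      x.foldr (fun b acc => (if b = true then 2 else 1) + 2 * acc) 0 := by
    intro x
    induction x with
    | nil => rfl
    | cons b x ih => simp [val, ih]
  have h1 : Primrec fun p : List Bool =>
      p.foldr (fun b acc => (if b = true then 2 else 1) + 2 * acc) 0 := by
    refine Primrec.list_foldr (f := fun p : List Bool => p)
      (g := fun _ : List Bool => (0 : ℕ))
      (h := fun (_ : List Bool) (q : Bool × ℕ) => (if q.1 = true then 2 else 1) + 2 * q.2)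
      Primrec.id (Primrec.const 0) ?_
    have h2 : Primrec fun p : List Bool × (Bool × ℕ) => p.2.1 := Primrec.fst.comp Primrec.snd
    have h3 : Primrec fun p : List Bool × (Bool × ℕ) => p.2.2 := Primrec.snd.comp Primrec.snd
    exact (Primrec.nat_add.comp (Primrec.ite (Primrec.eq.comp h2 (Primrec.const true))
      (Primrec.const 2) (Primrec.const 1)) (Primrec.nat_mul.comp (Primrec.const 2) h3)).to₂
  exact h1.of_eq fun p => (h p).symm

theorem primrec_inc : Primrec inc := FP.primrec FP.incI

theorem primrec_fs : Primrec fs := FP.primrec FP.fsI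

theorem primrec_sn : Primrec sn := FP.primrec FP.snI

/-- the `n`-th word -/
def wd (n : ℕ) : List Bool := inc^[n] []

theorem val_wd (n : ℕ) : val (wd n) = n := by
  rw [wd, val_inc_iter]; simp [val]

theorem wd_val (u : List Bool) : wd (val u) = u := val_inj (val_wd _)

theorem primrec_wd : Primrec wd :=
  Primrec.nat_iterate Primrec.id (Primrec.const []) (primrec_inc.comp Primrec.snd).to₂

theorem primrec_un : Primrec un := by
  have h : ∀ n, un n = (fun l : List Bool => true :: l)^[n] [] := by
    intro n
    induction n with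
    | zero => rfl
    | succ n ih => rw [Function.iterate_succ_apply', ← ih]; rfl
  have h1 : Primrec fun n : ℕ => (fun l : List Bool => true :: l)^[n] [] :=
    Primrec.nat_iterate Primrec.id (Primrec.const [])
      (Primrec.list_cons.comp (Primrec.const true) Primrec.snd).to₂
  exact h1.of_eq fun n => (h n).symm

theorem un_length (n : ℕ) : (un n).length = n := by simp [un]

/-- The numbering: the word `pr a u` computes `x ↦ (code number |a|)(u, x)`. -/
def nu (z : List Bool) (x : ℕ) : Part ℕ :=
  (Denumerable.ofNat Code (fs z).length).eval (Nat.pair (val (sn z)) x)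

theorem nu_pr (c : Code) (u : List Bool) (x : ℕ) :
    nu (pr (un (Encodable.encode c)) u) x = c.eval (Nat.pair (val u) x) := by
  rw [nu, fs_pr, sn_pr, un_length]
  simp

theorem nu_ps : ProgrammingSystem nu := by
  unfold ProgrammingSystem nu
  refine Code.eval_part.comp ?_ ?_
  · exact (Computable.ofNat Code).comp
      (Computable.list_length.comp (primrec_fs.to_comp.comp Computable.fst))
  · exact (Primrec₂.natPair.comp (primrec_val.comp (primrec_sn.comp Primrec.fst))
      Primrec.snd).to_comp

theorem nu_univ {ψ : List Bool → ℕ →. ℕ} (h : ProgrammingSystem ψ) :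
    ∃ a, ∀ i, ψ i = nu (pr a i) := by
  have h1 : Partrec fun n : ℕ => ψ (wd n.unpair.1) n.unpair.2 := by
    refine Partrec.comp (f := fun p : List Bool × ℕ => ψ p.1 p.2)
      (g := fun n : ℕ => (wd n.unpair.1, n.unpair.2)) h ?_
    exact ((primrec_wd.comp (Primrec.fst.comp Primrec.unpair)).pair
      (Primrec.snd.comp Primrec.unpair)).to_comp
  obtain ⟨c, hc⟩ := Code.exists_code.1 (Partrec.nat_iff.1 h1)
  refine ⟨un (Encodable.encode c), fun i => ?_⟩
  funext x
  rw [nu_pr, hc]
  simp [wd_val]

theorem nu_pad : ∃ b, ∀ w i, nu (pr b (pr w i)) = nu i := by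
  have h : ProgrammingSystem fun z => nu (sn z) := by
    refine Partrec.comp (f := fun p : List Bool × ℕ => nu p.1 p.2)
      (g := fun p : List Bool × ℕ => (sn p.1, p.2)) nu_ps ?_
    exact ((primrec_sn.comp Primrec.fst).pair Primrec.snd).to_comp
  obtain ⟨b, hb⟩ := nu_univ h
  exact ⟨b, fun w i => by rw [← hb]; simp [sn_pr]⟩

theorem nu_const : ∃ b, ∀ i x, nu (pr b i) x = Part.some 0 := by
  have h : ProgrammingSystem fun _ _ => Part.some 0 :=
    (Computable.const 0 : Computable fun _ : List Bool × ℕ => 0)
  obtain ⟨b, hb⟩ := nu_univ h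
  exact ⟨b, fun i x => by rw [← hb]⟩

theorem nu_godel : GodelNumbering nu := by
  refine ⟨nu_ps, fun f hf => ?_, fun ψ hψ => ?_⟩
  · have h : ProgrammingSystem fun _ => f := hf.comp Computable.snd
    obtain ⟨b, hb⟩ := nu_univ h
    exact ⟨pr b [], (hb []).symm⟩
  · obtain ⟨b, hb⟩ := nu_univ hψ
    exact ⟨fun i => pr b i, (primrec_pr.comp (Primrec.const b) Primrec.id).to_comp, hb⟩

theorem nu_gnp : GNPTime nu := by
  refine ⟨nu_godel, fun ψ hψ => ?_⟩
  obtain ⟨b, hb⟩ := nu_univ hψ.1
  exact ⟨fun i => pr b i, FP.polyTime (FP.pair (FP.const b) FP.id), hb⟩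

end Pool.Agent.Work.MP_caf7e3_lc
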