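import Mathlib
import Pool.Agent.Work.MP_caf7e3_lc.Num

/-!
The honest injective function `gg` obtained from an injective family of indices.
-/

namespace Pool.Agent.Work.MP_caf7e3_lc

open Pool.Agent.Work.MP_0532f7_lc Polynomial

/-- the index of the program `pr a u` -/
def sg (σ : List Bool → List Bool) (a u : List Bool) : List Bool := σ (pr a u)

/-- one step of the search for the word `w` -/
def sstep (w z : List Bool) : List Bool := if z = w then z else inc z

theorem sstep_iter (w : List Bool) : ∀ n : ℕ, (sstep w)^[n] [] = wd (min n (val w)) := by
  intro n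
  induction n with
  | zero => simp [wd]
  | succ n ih =>
    rw [Function.iterate_succ_apply', ih, sstep]
    by_cases h : n < val w
    · rw [if_neg, min_eq_left h.le, min_eq_left (Nat.succ_le_of_lt h), wd, wd,
        Function.iterate_succ_apply']
      intro h1
      rw [min_eq_left h.le] at h1
      rw [← h1, val_wd] at h
      omega
    · rw [min_eq_right (by omega), min_eq_right (by omega), wd_val, if_pos rfl]

/-- `w` is not among the first `|x| + 1` words -/
def long (x w : List Bool) : Bool := decide ((sstep w)^[x.length] [] ≠ w)

theorem long_iff (x w : List Bool) : long x w = true ↔ x.length < val w := by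
  rw [long, decide_eq_true_iff, sstep_iter]
  constructor
  · intro h
    by_contra h1
    exact h (by rw [min_eq_right (by omega), wd_val])
  · intro h h1
    rw [min_eq_left h.le] at h1
    rw [← h1, val_wd] at h
    omega

theorem wd_length (n : ℕ) : (wd n).length ≤ n := by
  induction n with
  | zero => simp [wd]
  | succ n ih =>
    rw [wd, Function.iterate_succ_apply']
    exact (inc_length _).trans (by simpa [wd] using ih)

theorem FPb.longI {f g : List Bool → List Bool} (hf : FP f) (hg : FP g) :
    FPb fun z => long (f z) (g z) := by
  obtain ⟨Q, hQ⟩ := hf.length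
  have h1 : FP fun z => sstep (fs z) (sn z) :=
    FP.ite (c := fun z => decide (sn z = fs z)) (FPb.eq FP.snI FP.fsI) FP.snI
      (FP.incI.comp FP.snI) |>.congr (fun z => by simp [sstep])
  have h2 : FP fun z => (sstep (g z))^[(f z).length] [] := by
    refine FP.iterc (step := sstep) h1 hg hf FP.nil Q (fun x i hi => ?_)
    rw [sstep_iter]
    exact (wd_length _).trans ((min_le_left _ _).trans (hi.trans (hQ x)))
  exact (FPb.not (FPb.eq h2 hg)).congr (fun z => by simp [long])

/-- one step of the search for the padding -/
def jst (σ : List Bool → List Bool) (p j : List Bool) : List Bool :=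
  if long (sn p) (sg σ (fs p) (pr (sn p) j)) = true then j else true :: j

/-- the padding of `x` -/
def jj (σ : List Bool → List Bool) (a x : List Bool) : List Bool :=
  (jst σ (pr a x))^[(true :: x).length] []

/-- the function `gg` -/
def gg (σ : List Bool → List Bool) (a x : List Bool) : List Bool := sg σ a (pr x (jj σ a x))

theorem jst_length (σ : List Bool → List Bool) (p : List Bool) (i : ℕ) :
    ((jst σ p)^[i] []).length ≤ i := by
  induction i with
  | zero => simp
  | succ i ih =>
    rw [Function.iterate_succ_apply', jst]
    split_ifs
    · omega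
    · simpa using ih

theorem FP.ggI {σ : List Bool → List Bool} (hσ : FP σ) :
    FP fun z => gg σ (fs z) (sn z) := by
  have h1 : FP fun z => jst σ (fs z) (sn z) := by
    refine FP.ite (c := fun z => long (sn (fs z))
      (sg σ (fs (fs z)) (pr (sn (fs z)) (sn z)))) ?_ FP.snI ((FP.cons true).comp FP.snI)
    exact FPb.longI FP.fsI.snd (hσ.comp (FP.fsI.fst.pair (FP.fsI.snd.pair FP.snI)))
  have h2 : FP fun z => jj σ (fs z) (sn z) := by
    refine FP.iterc (step := jst σ) h1 (FP.fsI.pair FP.snI) ((FP.cons true).comp FP.snI)
      FP.nil (X + 1) (fun x i hi => ?_)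
    refine (jst_length _ _ _).trans (hi.trans ?_)
    have := sn_length x
    simp only [List.length_cons, eval_add, eval_X, eval_one]
    omega
  exact hσ.comp (FP.fsI.pair (FP.snI.pair h2))

theorem sg_le_inj {σ : List Bool → List Bool} {a : List Bool}
    (h : Function.Injective (sg σ a)) {x : List Bool}
    (hs : ∀ i < (true :: x).length + 1, ¬ x.length < val (sg σ a (pr x (un i)))) : False := by
  have h1 : Set.MapsTo (fun i => val (sg σ a (pr x (un i))))
      (Finset.range (x.length + 2) : Set ℕ) (Finset.range (x.length + 1) : Set ℕ) := by
    intro i hi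
    have hi' : i < x.length + 2 := by simpa using hi
    have := hs i (by simp only [List.length_cons]; omega)
    simp only [Finset.coe_range, Set.mem_Iio]
    omega
  have h2 : (Finset.range (x.length + 2)).card ≤ (Finset.range (x.length + 1)).card := by
    refine Finset.card_le_card_of_injOn _ h1 ?_
    intro i _ j _ hij
    have h3 := h (val_inj hij)
    have h4 : un i = un j := by
      have := congrArg sn h3
      simpa [sn_pr] using this
    exact un_inj h4
  simp at h2

theorem jj_spec {σ : List Bool → List Bool} {a : List Bool}
    (h : Function.Injective (sg σ a)) (x : List Bool) :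
    x.length < val (gg σ a x) := by
  have key : ∀ n : ℕ, x.length < val (sg σ a (pr x ((jst σ (pr a x))^[n] []))) ∨
      (((jst σ (pr a x))^[n] []) = un n ∧
        ∀ i < n, ¬ x.length < val (sg σ a (pr x (un i)))) := by
    intro n
    induction n with
    | zero => right; exact ⟨rfl, fun i hi => absurd hi (Nat.not_lt_zero _)⟩
    | succ n ih =>
      rw [Function.iterate_succ_apply']
      rcases ih with h1 | ⟨h1, h2⟩
      · left
        rw [jst, if_pos]
        · exact h1
        · rw [fs_pr, sn_pr, long_iff]; exact h1
      · rw [h1]
        by_cases h3 : x.length < val (sg σ a (pr x (un n)))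
        · left
          rw [jst, if_pos]
          · exact h3
          · rw [fs_pr, sn_pr, long_iff]; exact h3
        · right
          rw [jst, if_neg]
          · refine ⟨rfl, fun i hi => ?_⟩
            rcases Nat.lt_succ_iff_lt_or_eq.1 hi with h4 | h4
            · exact h2 i h4
            · rw [h4]; exact h3
          · rw [fs_pr, sn_pr, long_iff]; exact h3
  rcases key (true :: x).length with h1 | ⟨h1, h2⟩
  · exact h1
  · by_contra h3
    refine sg_le_inj h (x := x) (fun i hi => ?_)
    rcases Nat.lt_succ_iff_lt_or_eq.1 hi with h4 | h4
    · exact h2 i h4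
    · rw [h4, ← h1]; exact h3

theorem gg_inj {σ : List Bool → List Bool} {a : List Bool}
    (h : Function.Injective (sg σ a)) : Function.Injective (gg σ a) := by
  intro x y hxy
  have h1 := congrArg fs (h hxy)
  simpa [fs_pr] using h1

end Pool.Agent.Work.MP_caf7e3_lc
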