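import Mathlib
import Pool.Agent.Work.MP_caf7e3_lc.Search

/-!
The self-referential family of programs.
-/

namespace Pool.Agent.Work.MP_caf7e3_lc

open Pool.Agent.Work.MP_0532f7_lc Nat.Partrec

variable (σ : List Bool → List Bool) (E : List Bool → List Bool → List Bool)

/-- the word `y` is mapped correctly by the `k`-th pair of functions -/
def okAt (a : List Bool) (k : ℕ) (y : List Bool) : Prop :=
  E (wd k.unpair.2) (E (wd k.unpair.1) y) = y ∧
    ∃ l < 2 ^ (val (E (wd k.unpair.1) y) + 1), gg σ a (wd l) = E (wd k.unpair.1) y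

/-- the `k`-th pair is refuted at stage `m` -/
def refd (a : List Bool) (m k : ℕ) : Prop := ∃ n < m, ¬ okAt σ E a k (wd n)

open Classical in
/-- the least pair which is not refuted at stage `m` -/
noncomputable def kk (a : List Bool) (m : ℕ) : ℕ :=
  (fun k => if refd σ E a m k then k + 1 else k)^[m + 1] 0

/-- the word simulated by `u` -/
noncomputable def vv (a u : List Bool) : List Bool :=
  E (wd (kk σ E a (fs u).length).unpair.2) (sg σ a u)

/-- smaller collision -/
def colS (a u : List Bool) : Prop := ∃ l < val u, sg σ a (wd l) = sg σ a u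

/-- larger collision below `z` -/
def colL (a u : List Bool) (z : ℕ) : Prop := ∃ l < z, l ≠ val u ∧ sg σ a (wd l) = sg σ a u

open Classical in
/-- the functional -/
noncomputable def FF (c : Code) (n : ℕ) : Part ℕ :=
  if colS σ (un (Encodable.encode c)) (wd n.unpair.1) then Part.some 1 else
  if colL σ (un (Encodable.encode c)) (wd n.unpair.1) n.unpair.2 then Part.some 0 else
  nu (vv σ E (un (Encodable.encode c)) (wd n.unpair.1)) n.unpair.2

variable {σ E}

theorem primrec_pow2 : Primrec fun n : ℕ => 2 ^ n := by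
  have h : ∀ n : ℕ, 2 ^ n = (fun k => 2 * k)^[n] 1 := by
    intro n
    induction n with
    | zero => rfl
    | succ n ih => rw [Function.iterate_succ_apply', ← ih, pow_succ, mul_comm]
  have h1 : Primrec fun n : ℕ => (fun k => 2 * k)^[n] 1 :=
    Primrec.nat_iterate Primrec.id (Primrec.const 1)
      (Primrec.nat_mul.comp (Primrec.const 2) Primrec.snd).to₂
  exact h1.of_eq fun n => (h n).symm

theorem primrec_sg (hσ : Primrec σ) : Primrec₂ (sg σ) :=
  (hσ.comp (primrec_pr.comp Primrec.fst Primrec.snd)).to₂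

theorem primrec_gg (hσ : FP σ) : Primrec₂ (gg σ) := by
  have h := (FP.primrec (FP.ggI hσ)).comp
    (primrec_pr.comp (Primrec.fst (α := List Bool) (β := List Bool)) Primrec.snd)
  have h2 : Primrec fun p : List Bool × List Bool => gg σ p.1 p.2 :=
    h.of_eq (fun p => by simp [fs_pr, sn_pr])
  exact h2

theorem exists_lt' {β : Type} [Primcodable β] {R : ℕ → β → Prop} (hf : PrimrecRel R) :
    PrimrecRel fun n b => ∃ x < n, R x b :=
  (hf.exists_mem_list.comp (Primrec.list_range.comp Primrec.fst) Primrec.snd).of_eq (by simp)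

theorem pred_okAt (hσ : FP σ) (hE : Primrec₂ E) :
    PrimrecPred fun q : List Bool × ℕ × List Bool => okAt σ E q.1 q.2.1 q.2.2 := by
  have hk : Primrec fun q : List Bool × ℕ × List Bool => q.2.1 := Primrec.fst.comp Primrec.snd
  have hy : Primrec fun q : List Bool × ℕ × List Bool => q.2.2 := Primrec.snd.comp Primrec.snd
  have hk1 : Primrec fun q : List Bool × ℕ × List Bool => wd q.2.1.unpair.1 :=
    primrec_wd.comp (Primrec.fst.comp (Primrec.unpair.comp hk))
  have hk2 : Primrec fun q : List Bool × ℕ × List Bool => wd q.2.1.unpair.2 :=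
    primrec_wd.comp (Primrec.snd.comp (Primrec.unpair.comp hk))
  have h1 : Primrec fun q : List Bool × ℕ × List Bool => E (wd q.2.1.unpair.1) q.2.2 :=
    hE.comp hk1 hy
  have h2 : Primrec fun q : List Bool × ℕ × List Bool =>
      E (wd q.2.1.unpair.2) (E (wd q.2.1.unpair.1) q.2.2) := hE.comp hk2 h1
  have h3 : PrimrecPred fun q : List Bool × ℕ × List Bool =>
      E (wd q.2.1.unpair.2) (E (wd q.2.1.unpair.1) q.2.2) = q.2.2 := Primrec.eq.comp h2 hy
  have h4 : PrimrecRel fun (l : ℕ) (p : List Bool × List Bool) => gg σ p.1 (wd l) = p.2 :=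
    Primrec.eq.comp ((primrec_gg hσ).comp (Primrec.fst.comp Primrec.snd)
      (primrec_wd.comp Primrec.fst)) (Primrec.snd.comp Primrec.snd)
  have h5 := exists_lt' h4
  have h6 : PrimrecPred fun q : List Bool × ℕ × List Bool =>
      ∃ l < 2 ^ (val (E (wd q.2.1.unpair.1) q.2.2) + 1),
        gg σ q.1 (wd l) = E (wd q.2.1.unpair.1) q.2.2 :=
    h5.comp (primrec_pow2.comp (Primrec.succ.comp (primrec_val.comp h1))) (Primrec.fst.pair h1)
  exact h3.and h6

theorem rel_refd (hσ : FP σ) (hE : Primrec₂ E) :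
    PrimrecPred fun q : List Bool × ℕ × ℕ => refd σ E q.1 q.2.1 q.2.2 := by
  have h1 : PrimrecRel fun (n : ℕ) (p : List Bool × ℕ) => ¬ okAt σ E p.1 p.2 (wd n) :=
    ((pred_okAt hσ hE).comp ((Primrec.fst.comp Primrec.snd).pair
      ((Primrec.snd.comp Primrec.snd).pair (primrec_wd.comp Primrec.fst)))).not
  exact (exists_lt' h1).comp (Primrec.fst.comp Primrec.snd)
    (Primrec.fst.pair (Primrec.snd.comp Primrec.snd))

theorem primrec_kk (hσ : FP σ) (hE : Primrec₂ E) : Primrec₂ (kk σ E) := by
  classical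
  have h1 : Primrec fun p : List Bool × ℕ =>
      (fun k => if refd σ E p.1 p.2 k then k + 1 else k)^[p.2 + 1] 0 := by
    refine Primrec.nat_iterate (Primrec.succ.comp Primrec.snd) (Primrec.const 0)
      (h := fun (p : List Bool × ℕ) (k : ℕ) => if refd σ E p.1 p.2 k then k + 1 else k) ?_
    refine Primrec.ite ?_ (Primrec.succ.comp Primrec.snd) Primrec.snd
    exact (rel_refd hσ hE).comp ((Primrec.fst.comp Primrec.fst).pair
      ((Primrec.snd.comp Primrec.fst).pair Primrec.snd))
  exact h1

theorem primrec_vv (hσ : FP σ) (hE : Primrec₂ E) : Primrec₂ (vv σ E) := by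
  have h1 : Primrec fun p : List Bool × List Bool => kk σ E p.1 (fs p.2).length :=
    (primrec_kk hσ hE).comp Primrec.fst
      (Primrec.list_length.comp (primrec_fs.comp Primrec.snd))
  have h2 : Primrec fun p : List Bool × List Bool =>
      E (wd (kk σ E p.1 (fs p.2).length).unpair.2) (sg σ p.1 p.2) :=
    hE.comp (primrec_wd.comp (Primrec.snd.comp (Primrec.unpair.comp h1)))
      ((primrec_sg (FP.primrec hσ)).comp Primrec.fst Primrec.snd)
  exact h2

theorem rel_colS (hσ : FP σ) : PrimrecRel (colS σ) := by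
  have h1 : PrimrecRel fun (l : ℕ) (p : List Bool × List Bool) =>
      sg σ p.1 (wd l) = sg σ p.1 p.2 :=
    Primrec.eq.comp ((primrec_sg (FP.primrec hσ)).comp (Primrec.fst.comp Primrec.snd)
      (primrec_wd.comp Primrec.fst)) ((primrec_sg (FP.primrec hσ)).comp
      (Primrec.fst.comp Primrec.snd) (Primrec.snd.comp Primrec.snd))
  exact (exists_lt' h1).comp (primrec_val.comp Primrec.snd) Primrec.id

theorem rel_colL (hσ : FP σ) :
    PrimrecPred fun q : List Bool × List Bool × ℕ => colL σ q.1 q.2.1 q.2.2 := by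
  have h0 : PrimrecRel fun (l : ℕ) (p : List Bool × List Bool) =>
      sg σ p.1 (wd l) = sg σ p.1 p.2 :=
    Primrec.eq.comp ((primrec_sg (FP.primrec hσ)).comp (Primrec.fst.comp Primrec.snd)
      (primrec_wd.comp Primrec.fst)) ((primrec_sg (FP.primrec hσ)).comp
      (Primrec.fst.comp Primrec.snd) (Primrec.snd.comp Primrec.snd))
  have h2 : PrimrecRel fun (l : ℕ) (p : List Bool × List Bool) => l = val p.2 :=
    Primrec.eq.comp Primrec.fst (primrec_val.comp (Primrec.snd.comp Primrec.snd))
  have h1 : PrimrecRel fun (l : ℕ) (p : List Bool × List Bool) =>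
      l ≠ val p.2 ∧ sg σ p.1 (wd l) = sg σ p.1 p.2 := (PrimrecPred.not h2).and h0
  exact (exists_lt' h1).comp (Primrec.snd.comp Primrec.snd)
    (Primrec.fst.pair (Primrec.fst.comp Primrec.snd))

theorem partrec_FF (hσ : FP σ) (hE : Primrec₂ E) : Partrec₂ (FF σ E) := by
  classical
  have ha : Primrec fun p : Code × ℕ => un (Encodable.encode p.1) :=
    primrec_un.comp (Primrec.encode.comp Primrec.fst)
  have hu : Primrec fun p : Code × ℕ => wd p.2.unpair.1 :=
    primrec_wd.comp (Primrec.fst.comp (Primrec.unpair.comp Primrec.snd))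
  have hz : Primrec fun p : Code × ℕ => p.2.unpair.2 :=
    Primrec.snd.comp (Primrec.unpair.comp Primrec.snd)
  have h1 : PrimrecPred fun p : Code × ℕ =>
      colS σ (un (Encodable.encode p.1)) (wd p.2.unpair.1) := (rel_colS hσ).comp ha hu
  have h2 : PrimrecPred fun p : Code × ℕ =>
      colL σ (un (Encodable.encode p.1)) (wd p.2.unpair.1) p.2.unpair.2 :=
    (rel_colL hσ).comp (ha.pair (hu.pair hz))
  have h3 : Primrec fun p : Code × ℕ =>
      vv σ E (un (Encodable.encode p.1)) (wd p.2.unpair.1) := (primrec_vv hσ hE).comp ha hu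
  have h4 : Partrec fun p : Code × ℕ =>
      nu (vv σ E (un (Encodable.encode p.1)) (wd p.2.unpair.1)) p.2.unpair.2 :=
    Partrec.comp (f := fun p : List Bool × ℕ => nu p.1 p.2) nu_ps (h3.pair hz).to_comp
  have h5 := Partrec.cond (c := fun p : Code × ℕ =>
      decide (colL σ (un (Encodable.encode p.1)) (wd p.2.unpair.1) p.2.unpair.2))
      h2.decide.to_comp (Computable.const 0 : Computable fun _ : Code × ℕ => 0) h4
  have h6 := Partrec.cond (c := fun p : Code × ℕ =>
      decide (colS σ (un (Encodable.encode p.1)) (wd p.2.unpair.1)))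
      h1.decide.to_comp (Computable.const 1 : Computable fun _ : Code × ℕ => 1) h5
  refine h6.of_eq fun p => ?_
  rw [FF]
  by_cases a : colS σ (un (Encodable.encode p.1)) (wd p.2.unpair.1)
  · simp [a]
  · by_cases b : colL σ (un (Encodable.encode p.1)) (wd p.2.unpair.1) p.2.unpair.2
    · simp [a, b]
    · simp [a, b]

theorem nu_fix (hσ : FP σ) (hE : Primrec₂ E) : ∃ a : List Bool, ∀ (u : List Bool) (z : ℕ),
    (colS σ a u → nu (pr a u) z = Part.some 1) ∧
    (¬ colS σ a u → colL σ a u z → nu (pr a u) z = Part.some 0) ∧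
    (¬ colS σ a u → ¬ colL σ a u z → nu (pr a u) z = nu (vv σ E a u) z) := by
  obtain ⟨c, hc⟩ := Code.fixed_point₂ (partrec_FF hσ hE)
  refine ⟨un (Encodable.encode c), fun u z => ?_⟩
  have e1 : wd (Nat.unpair (Nat.pair (val u) z)).1 = u := by rw [Nat.unpair_pair]; exact wd_val u
  have e2 : (Nat.unpair (Nat.pair (val u) z)).2 = z := by rw [Nat.unpair_pair]
  rw [nu_pr, hc, FF, e1, e2]
  refine ⟨fun h => by rw [if_pos h], fun h h' => by rw [if_neg h, if_pos h'],
    fun h h' => by rw [if_neg h, if_neg h']⟩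

theorem rec_thm (hσ : FP σ) (hE : Primrec₂ E) {φ : List Bool → ℕ →. ℕ}
    (h : ∀ i, nu i = φ (σ i)) : ∃ a : List Bool, Function.Injective (sg σ a) ∧
      ∀ u, nu (pr a u) = nu (vv σ E a u) := by
  classical
  obtain ⟨a, ha⟩ := nu_fix hσ hE
  have hinj : Function.Injective (sg σ a) := by
    have key : ∀ u : List Bool, ¬ colS σ a u := by
      intro u hu
      have hex : ∃ l, sg σ a (wd l) = sg σ a u := ⟨val u, by rw [wd_val]⟩
      have hl := Nat.find_spec hex
      have hmin := fun m => Nat.find_min hex (m := m)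
      set l := Nat.find hex
      have hlt : l < val u := by
        obtain ⟨m, hm, hm'⟩ := hu
        exact lt_of_le_of_lt (Nat.find_le hm') hm
      have h1 : ¬ colS σ a (wd l) := by
        rintro ⟨m, hm, hm'⟩
        rw [val_wd] at hm
        exact hmin m hm (hm'.trans hl)
      have h2 : colL σ a (wd l) (val u + 1) :=
        ⟨val u, Nat.lt_succ_self _, by rw [val_wd]; omega, by rw [wd_val, hl]⟩
      have h3 := (ha (wd l) (val u + 1)).2.1 h1 h2
      have h4 := (ha u (val u + 1)).1 hu
      have h5 : nu (pr a (wd l)) = nu (pr a u) := by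
        rw [h, h]
        exact congrArg φ hl
      rw [h5, h4] at h3
      exact absurd (Part.some_inj.1 h3) (by norm_num)
    intro u v huv
    rcases lt_trichotomy (val u) (val v) with h1 | h1 | h1
    · exact absurd ⟨val u, h1, by rw [wd_val, huv]⟩ (key v)
    · exact val_inj h1
    · exact absurd ⟨val v, h1, by rw [wd_val, huv]⟩ (key u)
  refine ⟨a, hinj, fun u => ?_⟩
  funext z
  refine (ha u z).2.2 ?_ ?_
  · rintro ⟨l, hl, hl'⟩
    have := hinj hl'
    rw [← this, val_wd] at hl
    exact lt_irrefl _ hl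
  · rintro ⟨l, -, hl, hl'⟩
    have := hinj hl'
    rw [← this, val_wd] at hl
    exact hl rfl

end Pool.Agent.Work.MP_caf7e3_lc
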