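import Mathlib
import Pool.Agent.Work.MP_caf7e3_lc.Rec

/-!
An enumeration of the polynomial-time functions.
-/

namespace Pool.Agent.Work.MP_caf7e3_lc

open Pool.Agent.Work.MP_0532f7_lc Polynomial

/-- the `k`-th polynomial-time function -/
def EE (k x : List Bool) : List Bool :=
  (uni (fs k) x (un (x.length ^ (sn k).length + (sn k).length))).tail

theorem uni_len {c x t t' : List Bool} (h : t.length = t'.length) : uni c x t = uni c x t' := by
  simp only [uni, urun, h]

theorem EE_fp (k : List Bool) : FP (EE k) := by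
  obtain ⟨c, hc, hc'⟩ := FP.clock (X ^ (sn k).length + C (sn k).length)
  refine (FP.tail.comp (FP.uniI (FP.const (fs k)) FP.id hc)).congr (fun x => ?_)
  rw [EE]
  congr 1
  refine uni_len ?_
  rw [hc', un_length]
  simp

theorem EE_primrec : Primrec₂ EE := by
  have h1 : FP fun z => uni (fs z) (fs (sn z)) (sn (sn z)) := FP.uniI FP.fsI FP.snI.fst FP.snI.snd
  have h2 : Primrec fun p : List Bool × List Bool => (sn p.1).length :=
    Primrec.list_length.comp (primrec_sn.comp Primrec.fst)
  have h3 : Primrec fun p : List Bool × List Bool => p.2.length :=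
    Primrec.list_length.comp Primrec.snd
  have hpow : Primrec₂ fun m n : ℕ => m ^ n := by
    have h : ∀ m n : ℕ, m ^ n = (fun k => m * k)^[n] 1 := by
      intro m n
      induction n with
      | zero => rfl
      | succ n ih => rw [Function.iterate_succ_apply', ← ih, pow_succ, mul_comm]
    have h1 : Primrec fun p : ℕ × ℕ => (fun k => p.1 * k)^[p.2] 1 :=
      Primrec.nat_iterate (h := fun (p : ℕ × ℕ) k => p.1 * k) Primrec.snd (Primrec.const 1)
        (Primrec.nat_mul.comp (Primrec.fst.comp Primrec.fst) Primrec.snd).to₂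
    exact h1.of_eq fun p => (h p.1 p.2).symm
  have h4 : Primrec fun p : List Bool × List Bool =>
      un (p.2.length ^ (sn p.1).length + (sn p.1).length) :=
    primrec_un.comp (Primrec.nat_add.comp (hpow.comp h3 h2) h2)
  have h5 : Primrec fun p : List Bool × List Bool =>
      pr (fs p.1) (pr p.2 (un (p.2.length ^ (sn p.1).length + (sn p.1).length))) :=
    primrec_pr.comp (primrec_fs.comp Primrec.fst) (primrec_pr.comp Primrec.snd h4)
  have h6 := Primrec.list_tail.comp ((FP.primrec h1).comp h5)
  have h7 : Primrec fun p : List Bool × List Bool => EE p.1 p.2 :=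
    h6.of_eq fun p => by simp only [fs_pr, sn_pr, EE]
  exact h7

theorem poly_bound (P : Polynomial ℕ) : ∃ n : ℕ, ∀ m : ℕ, P.eval m ≤ m ^ n + n := by
  have h : ∃ C d : ℕ, ∀ m : ℕ, P.eval m ≤ C * (m ^ d + 1) := by
    induction P using Polynomial.induction_on' with
    | add p q hp hq =>
      obtain ⟨C, d, h⟩ := hp
      obtain ⟨C', d', h'⟩ := hq
      refine ⟨2 * (C + C'), d + d', fun m => ?_⟩
      rw [eval_add]
      have h1 := h m
      have h2 := h' m
      have h3 : m ^ d ≤ m ^ (d + d') + 1 := by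
        rcases Nat.eq_zero_or_pos m with h0 | h0
        · subst h0
          rcases Nat.eq_zero_or_pos d with h5 | h5
          · subst h5; simp
          · simp [Nat.pos_iff_ne_zero.1 h5]
        · exact (Nat.pow_le_pow_right h0 (Nat.le_add_right d d')).trans (Nat.le_succ _)
      have h4 : m ^ d' ≤ m ^ (d + d') + 1 := by
        rcases Nat.eq_zero_or_pos m with h0 | h0
        · subst h0
          rcases Nat.eq_zero_or_pos d' with h5 | h5
          · subst h5; simp
          · simp [Nat.pos_iff_ne_zero.1 h5]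
        · exact (Nat.pow_le_pow_right h0 (Nat.le_add_left d' d)).trans (Nat.le_succ _)
      calc eval m p + eval m q ≤ C * (m ^ d + 1) + C' * (m ^ d' + 1) := add_le_add h1 h2
        _ ≤ C * (m ^ (d + d') + 1 + 1) + C' * (m ^ (d + d') + 1 + 1) :=
          add_le_add (Nat.mul_le_mul_left _ (Nat.succ_le_succ h3))
            (Nat.mul_le_mul_left _ (Nat.succ_le_succ h4))
        _ ≤ 2 * (C + C') * (m ^ (d + d') + 1) := by
          nlinarith [Nat.zero_le (C * m ^ (d + d')), Nat.zero_le (C' * m ^ (d + d'))]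
    | monomial n c =>
      exact ⟨c, n, fun m => by rw [eval_monomial]; nlinarith [Nat.zero_le c]⟩
  obtain ⟨C, d, h⟩ := h
  refine ⟨2 * C + d + 1, fun m => (h m).trans ?_⟩
  rcases Nat.lt_or_ge m 2 with h0 | h0
  · have h1 : m ^ d ≤ 1 := by
      interval_cases m
      · rcases Nat.eq_zero_or_pos d with h5 | h5
        · subst h5; simp
        · simp [Nat.pos_iff_ne_zero.1 h5]
      · simp
    have h2 : C * (m ^ d + 1) ≤ C * 2 := Nat.mul_le_mul_left _ (by omega)
    omega
  · have h1 : 1 ≤ m ^ d := Nat.one_le_pow _ _ (by omega)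
    have h2 : 2 * C ≤ m ^ (2 * C) := by
      calc 2 * C ≤ 2 ^ (2 * C) := Nat.lt_two_pow_self.le
        _ ≤ m ^ (2 * C) := Nat.pow_le_pow_left h0 _
    have h3 : C * (m ^ d + 1) ≤ m ^ (2 * C) * m ^ d := by nlinarith
    have h4 : m ^ (2 * C) * m ^ d ≤ m ^ (2 * C + d + 1) := by
      rw [← pow_add]
      exact Nat.pow_le_pow_right (by omega) (by omega)
    omega

theorem EE_surj {f : List Bool → List Bool} (hf : FP f) : ∃ k, ∀ x, EE k x = f x := by
  obtain ⟨c, P, h⟩ := uni_spec (FP.polyTime hf)
  obtain ⟨n, hn⟩ := poly_bound P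
  refine ⟨pr c (un n), fun x => ?_⟩
  rw [EE, fs_pr, sn_pr, (h x _).1]
  · rfl
  · rw [un_length, un_length]; exact hn _

end Pool.Agent.Work.MP_caf7e3_lc
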