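import Mathlib
import Pool.Agent.Work.MP_caf7e3_lc.Rec

/-!
If ranges of injective polynomial-time functions contain ranges of p-invertible functions, then
the natural numbering has a p-invertible translation.
-/

namespace Pool.Agent.Work.MP_caf7e3_lc

open Pool.Agent.Work.MP_0532f7_lc Nat.Partrec

/-- the range of every injective polynomial-time function contains the range of a p-invertible
function -/
def Star : Prop := ∀ g : List Bool → List Bool, FP g → Function.Injective g →
  ∃ p q : List Bool → List Bool, FP p ∧ FP q ∧ (∀ x, q (p x) = x) ∧ ∀ x, p x ∈ Set.range g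

theorem iter_least {R : ℕ → Prop} [DecidablePred R] {k : ℕ} (h1 : ∀ i < k, R i) (h2 : ¬ R k)
    (n : ℕ) : (fun j => if R j then j + 1 else j)^[n] 0 = min n k := by
  induction n with
  | zero => simp
  | succ n ih =>
    rw [Function.iterate_succ_apply', ih]
    by_cases h : n < k
    · rw [min_eq_left h.le, if_pos (h1 n h), min_eq_left (Nat.succ_le_of_lt h)]
    · rw [min_eq_right (by omega), min_eq_right (by omega), if_neg h2]

theorem stepA (hs : Star) {E : List Bool → List Bool → List Bool} (hE : Primrec₂ E)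
    (hE2 : ∀ k, FP (E k)) (hE3 : ∀ f, FP f → ∃ k, ∀ x, E k x = f x)
    {φ : List Bool → ℕ →. ℕ} {σ : List Bool → List Bool} (hσ : FP σ)
    (h : ∀ i, nu i = φ (σ i)) : ∃ τ τ' : List Bool → List Bool, FP τ ∧ FP τ' ∧
      (∀ i, τ' (τ i) = i) ∧ ∀ i, nu i = φ (τ i) := by
  classical
  obtain ⟨a, hinj, hsem⟩ := rec_thm hσ hE h
  have hg : FP (gg σ a) := ((FP.ggI hσ).comp ((FP.const a).pair FP.id)).congr
    (fun x => by rw [fs_pr, sn_pr])
  have hginj := gg_inj hinj
  have hlong := jj_spec hinj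
  have hex : ∃ k, ∀ y, okAt σ E a k y := by
    obtain ⟨p, q, hp, hq, hpq, hpg⟩ := hs _ hg hginj
    obtain ⟨kp, hkp⟩ := hE3 p hp
    obtain ⟨kq, hkq⟩ := hE3 q hq
    refine ⟨Nat.pair (val kp) (val kq), fun y => ?_⟩
    unfold okAt
    rw [Nat.unpair_pair, wd_val, wd_val, hkp, hkq]
    refine ⟨hpq y, ?_⟩
    obtain ⟨x, hx⟩ := hpg y
    refine ⟨val x, ?_, by rw [wd_val, hx]⟩
    have h1 := hlong x
    rw [hx] at h1
    have h2 := val_le x
    have h3 : 2 ^ (x.length + 1) ≤ 2 ^ (val (p y) + 1) := Nat.pow_le_pow_right (by omega) (by omega)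
    omega
  have hk := Nat.find_spec hex
  have hmin := fun m => Nat.find_min hex (m := m)
  set ks := Nat.find hex
  have hM : ∀ᶠ m in Filter.atTop, ∀ k ∈ Finset.range ks, refd σ E a m k := by
    refine (Filter.eventually_all_finset _).2 (fun k hk' => ?_)
    have h1 := hmin k (Finset.mem_range.1 hk')
    push Not at h1
    obtain ⟨y, hy⟩ := h1
    refine Filter.eventually_atTop.2 ⟨val y + 1, fun m hm => ⟨val y, by omega, ?_⟩⟩
    rw [wd_val]; exact hy
  obtain ⟨M0, hM0⟩ := Filter.eventually_atTop.1 hM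
  have hkk : ∀ m, M0 + ks ≤ m → kk σ E a m = ks := by
    intro m hm
    rw [kk]
    have h1 := iter_least (R := refd σ E a m) (k := ks)
      (fun i hi => hM0 m (by omega) i (Finset.mem_range.2 hi))
      (fun h2 => by obtain ⟨n, -, hn⟩ := h2; exact hn (hk _)) (m + 1)
    rw [min_eq_right (by omega)] at h1
    convert h1
  set M := M0 + ks
  obtain ⟨b, hb⟩ := nu_pad
  set p := E (wd ks.unpair.1) with hp
  set q := E (wd ks.unpair.2) with hq
  have hqp : ∀ y, q (p y) = y := fun y => (hk y).1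
  have hpinj : Function.Injective p := fun x y hxy => by rw [← hqp x, hxy, hqp]
  have hfin : (p ⁻¹' (gg σ a '' {x | x.length < M})).Finite :=
    ((List.finite_length_lt Bool M).image _).preimage hpinj.injOn
  obtain ⟨D, hD⟩ : ∃ D, ∀ y ∈ p ⁻¹' (gg σ a '' {x | x.length < M}), y.length ≤ D := by
    obtain ⟨D, hD⟩ := (hfin.image List.length).bddAbove
    exact ⟨D, fun y hy => hD ⟨y, hy, rfl⟩⟩
  refine ⟨fun i => p (pr b (pr (un D) i)), fun w => sn (sn (q w)),
    (hE2 _).comp ((FP.const b).pair ((FP.const (un D)).pair FP.id)), (hE2 _).snd.snd,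
    fun i => by simp only [hqp, sn_pr], fun i => ?_⟩
  set Y := pr b (pr (un D) i) with hY
  obtain ⟨l, -, hl⟩ := (hk Y).2
  have hlen : M ≤ (wd l).length := by
    by_contra hc
    have h1 := hD Y ⟨wd l, by simpa using hc, hl⟩
    rw [hY, pr_length, pr_length, un_length] at h1
    omega
  have h2 := hsem (pr (wd l) (jj σ a (wd l)))
  have h3 : sg σ a (pr (wd l) (jj σ a (wd l))) = p Y := hl
  rw [vv, fs_pr, hkk _ hlen, h3, ← hq, hqp, hY, hb, h] at h2
  rw [← h2]
  exact congrArg φ h3

end Pool.Agent.Work.MP_caf7e3_lc
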