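import Mathlib
import Pool.Agent.Work.MP_caf7e3_lc.StepA

/-!
If all numberings in GNPTime are polynomial-time isomorphic then ranges of injective
polynomial-time functions contain ranges of p-invertible functions.
-/

namespace Pool.Agent.Work.MP_caf7e3_lc

open Pool.Agent.Work.MP_0532f7_lc Nat.Partrec

/-- the numbering `g u ↦ nu u` -/
noncomputable def mu (g : List Bool → List Bool) (y : List Bool) (x : ℕ) : Part ℕ :=
  (Nat.rfindOpt fun n => if g (wd n) = y then some (wd n) else none).bind fun u => nu u x

theorem mu_ps {g : List Bool → List Bool} (hg : FP g) : ProgrammingSystem (mu g) := by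
  have h1 : Partrec fun p : List Bool × ℕ =>
      Nat.rfindOpt fun n => if g (wd n) = p.1 then some (wd n) else none := by
    refine Partrec.rfindOpt (f := fun (p : List Bool × ℕ) (n : ℕ) =>
      if g (wd n) = p.1 then some (wd n) else none) ?_
    have h2 : Primrec fun q : (List Bool × ℕ) × ℕ => wd q.2 := primrec_wd.comp Primrec.snd
    have h3 : Primrec fun q : (List Bool × ℕ) × ℕ =>
        if g (wd q.2) = q.1.1 then some (wd q.2) else none :=
      Primrec.ite (Primrec.eq.comp ((FP.primrec hg).comp h2) (Primrec.fst.comp Primrec.fst))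
        (Primrec.option_some.comp h2) (Primrec.const none)
    exact h3.to_comp
  have h4 : Partrec₂ fun (p : List Bool × ℕ) (u : List Bool) => nu u p.2 := by
    refine Partrec.comp (f := fun p : List Bool × ℕ => nu p.1 p.2)
      (g := fun q : (List Bool × ℕ) × List Bool => (q.2, q.1.2)) nu_ps ?_
    exact (Primrec.snd.pair (Primrec.snd.comp Primrec.fst)).to_comp
  exact h1.bind h4

theorem mu_g {g : List Bool → List Bool} (hg : Function.Injective g) (u : List Bool) :
    mu g (g u) = nu u := by
  funext x
  have h1 : (Nat.rfindOpt fun n => if g (wd n) = g u then some (wd n) else none) =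
      Part.some u := by
    have hd : (Nat.rfindOpt fun n => if g (wd n) = g u then some (wd n) else none).Dom :=
      Nat.rfindOpt_dom.2 ⟨val u, u, by simp [wd_val]⟩
    rw [Part.eq_some_iff]
    have h2 := Part.get_mem hd
    obtain ⟨n, hn⟩ := Nat.rfindOpt_spec h2
    have h3 : (Nat.rfindOpt fun n => if g (wd n) = g u then some (wd n) else none).get hd = u := by
      by_cases h4 : g (wd n) = g u
      · rw [if_pos h4] at hn
        rw [← Option.some_inj.1 hn]
        exact hg h4
      · rw [if_neg h4] at hn; exact absurd hn (by simp)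
    rw [h3] at h2
    exact h2
  rw [mu, h1]
  simp

theorem mu_none {g : List Bool → List Bool} {y : List Bool} (hy : y ∉ Set.range g) (x : ℕ) :
    mu g y x = Part.none := by
  have h1 : (Nat.rfindOpt fun n => if g (wd n) = y then some (wd n) else none) = Part.none := by
    rw [Part.eq_none_iff']
    intro h
    obtain ⟨n, a, ha⟩ := Nat.rfindOpt_dom.1 h
    by_cases h4 : g (wd n) = y
    · exact hy ⟨_, h4⟩
    · rw [if_neg h4] at ha; exact absurd ha (by simp)
  rw [mu, h1]
  simp

theorem mu_gnp {g : List Bool → List Bool} (hg : FP g) (hgi : Function.Injective g) :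
    GNPTime (mu g) := by
  refine ⟨⟨mu_ps hg, fun f hf => ?_, fun ψ hψ => ?_⟩, fun ψ hψ => ?_⟩
  · obtain ⟨i, hi⟩ := nu_godel.2.1 f hf
    exact ⟨g i, by rw [mu_g hgi, hi]⟩
  · obtain ⟨b, hb⟩ := nu_univ hψ
    exact ⟨fun i => g (pr b i), ((FP.primrec hg).comp
      (primrec_pr.comp (Primrec.const b) Primrec.id)).to_comp, fun i => by rw [mu_g hgi, hb]⟩
  · obtain ⟨b, hb⟩ := nu_univ hψ.1
    exact ⟨fun i => g (pr b i), FP.polyTime (hg.comp ((FP.const b).pair FP.id)),
      fun i => by rw [mu_g hgi, hb]⟩

theorem star_of_iso (hQ : ∀ φ ψ, GNPTime φ → GNPTime ψ → PolyIso ψ φ) : Star := by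
  intro g hg hgi
  obtain ⟨h, k, hh, hk, hkh, -, hn⟩ := hQ (mu g) nu (mu_gnp hg hgi) nu_gnp
  obtain ⟨b, hb⟩ := nu_const
  refine ⟨fun y => h (pr b y), fun w => sn (k w),
    (PolyTime.fp hh).comp ((FP.const b).pair FP.id), (PolyTime.fp hk).snd,
    fun x => by simp only [hkh, sn_pr], fun y => ?_⟩
  by_contra hc
  have h1 := congrFun (hn (pr b y)) 0
  rw [hb, mu_none hc] at h1
  exact Part.some_ne_none _ h1

end Pool.Agent.Work.MP_caf7e3_lc
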