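import Mathlib
import Pool.Agent.Work.MP_0532f7_lc.Defs
import Pool.Agent.Work.MP_caf7e3_lc.Defs

/-!
Paddable sets and scrambling functions.
-/

namespace Pool.Agent.Work.MP_caf7e3_lc

open Pool.Agent.Work.MP_0532f7_lc (pr)

/-- `S` is paddable: a polynomial-time computable, polynomial-time invertible function `pad` on
(codes `pr x y` of) pairs satisfies `pad (x, y) ∈ S ↔ x ∈ S`. -/
def Paddable (S : Set (List Bool)) : Prop :=
  ∃ pad inv : List Bool → List Bool, PolyTime pad ∧ PolyTime inv ∧
    (∀ x y, inv (pad (pr x y)) = pr x y) ∧ ∀ x y, pad (pr x y) ∈ S ↔ x ∈ S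

/-- `g` is a scrambling function: it is one-to-one, polynomial-time computable, and its range
contains no nonempty paddable set. -/
def Scrambling (g : List Bool → List Bool) : Prop :=
  PolyTime g ∧ Function.Injective g ∧ ∀ S ⊆ Set.range g, Paddable S → S = ∅

end Pool.Agent.Work.MP_caf7e3_lc
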