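import Mathlib
import Pool.Agent.Work.MP_caf7e3_lc.StepA
import Pool.Agent.Work.MP_caf7e3_lc.PadDefs

/-!
Ranges containing ranges of p-invertible functions are the ranges containing nonempty paddable
sets.
-/

namespace Pool.Agent.Work.MP_caf7e3_lc

open Pool.Agent.Work.MP_0532f7_lc

theorem star_of_noscr (h : ¬ ∃ g, Scrambling g) : Star := by
  intro g hg hgi
  by_contra hc
  refine h ⟨g, FP.polyTime hg, hgi, fun S hS hp => ?_⟩
  rw [Set.eq_empty_iff_forall_notMem]
  intro x hx
  obtain ⟨pad, inv, hpad, hinv, h1, h2⟩ := hp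
  refine hc ⟨fun y => pad (pr x y), fun w => sn (inv w),
    (PolyTime.fp hpad).comp ((FP.const x).pair FP.id), (PolyTime.fp hinv).snd,
    fun y => by simp only [h1, sn_pr], fun y => hS ((h2 x y).2 hx)⟩

theorem noscr_of_star (hs : Star) : ¬ ∃ g, Scrambling g := by
  rintro ⟨g, hg, hgi, hS⟩
  obtain ⟨p, q, hp, hq, hqp, hpg⟩ := hs g (PolyTime.fp hg) hgi
  have hpi : Function.Injective p := fun x y hxy => by rw [← hqp x, hxy, hqp]
  set S : Set (List Bool) := Set.range fun u => p (true :: u)
  have hmem : ∀ x, x ∈ S ↔ ((q x).head?.getD false = true ∧ p (q x) = x) := by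
    intro x
    constructor
    · rintro ⟨u, rfl⟩
      simp [hqp]
    · rintro ⟨h1, h2⟩
      cases hq' : q x with
      | nil => rw [hq'] at h1; simp at h1
      | cons b u =>
        rw [hq'] at h1
        have hb : b = true := by simpa using h1
        exact ⟨u, by show p (true :: u) = x; rw [← hb, ← hq', h2]⟩
  have hc : FPb fun z => (q (fs z)).head?.getD false && decide (p (q (fs z)) = fs z) :=
    FPb.and (FPb.hd.comp (hq.comp FP.fsI)) (FPb.eq (hp.comp (hq.comp FP.fsI)) FP.fsI)
  have hpad : FP fun z => p (((q (fs z)).head?.getD false && decide (p (q (fs z)) = fs z)) :: z) :=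
    hp.comp (FP.consb hc FP.id)
  have h0 := hS S (by rintro x ⟨u, rfl⟩; exact hpg _)
    ⟨_, fun w => (q w).tail, FP.polyTime hpad, FP.polyTime (FP.tail.comp hq),
      fun x y => by simp [hqp], fun x y => by
        by_cases hx : x ∈ S
        · simp only [fs_pr]
          rw [(hmem x).1 hx |>.1, (hmem x).1 hx |>.2]
          simp only [decide_true, Bool.and_self, hx, iff_true]
          exact ⟨_, rfl⟩
        · simp only [fs_pr, hx, iff_false]
          have h1 : ((q x).head?.getD false && decide (p (q x) = x)) = false := by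
            by_contra h2
            rw [Bool.not_eq_false, Bool.and_eq_true, decide_eq_true_iff] at h2
            exact hx ((hmem x).2 h2)
          rw [h1]
          rintro ⟨u, hu⟩
          exact absurd (hpi hu) (by simp)⟩
  have h1 : p [true] ∈ S := ⟨[], rfl⟩
  rw [h0] at h1
  exact h1

end Pool.Agent.Work.MP_caf7e3_lc
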