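import Mathlib
import Pool.Agent.Work.MP_0532f7_lc.Lib

/-!
Module BH: polynomial-time Cantor-Bernstein for length-increasing maps with polynomial-time inverses.
-/

set_option autoImplicit false

namespace Pool.Agent.Work.MP_caf7e3_lc

open Pool.Agent.Work.MP_0532f7_lc Polynomial

/-- one step back along the tagged chain; the head of the string says on which side we are -/
def bstep (f f' g g' : List Bool → List Bool) (z : List Bool) : List Bool :=
  if z.head?.getD false then
    (if decide (g (g' z.tail) = z.tail) then false :: g' z.tail else z)
  else
    (if decide (f (f' z.tail) = z.tail) then true :: f' z.tail else z)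

theorem bstep_fp {f f' g g' : List Bool → List Bool} (hf : FP f) (hf' : FP f') (hg : FP g)
    (hg' : FP g') : FP (bstep f f' g g') := by
  have hgt := hg'.comp FP.tail
  have hft := hf'.comp FP.tail
  exact FP.ite FPb.hd
    (FP.ite (FPb.eq (hg.comp hgt) FP.tail) ((FP.cons false).comp hgt) FP.id)
    (FP.ite (FPb.eq (hf.comp hft) FP.tail) ((FP.cons true).comp hft) FP.id)

theorem bstep_true (f f' g g' : List Bool → List Bool) (x : List Bool) :
    bstep f f' g g' (true :: x) = if g (g' x) = x then false :: g' x else true :: x := by
  simp [bstep]

theorem bstep_false (f f' g g' : List Bool → List Bool) (x : List Bool) :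
    bstep f f' g g' (false :: x) = if f (f' x) = x then true :: f' x else false :: x := by
  simp [bstep]

theorem bstep_lt {f f' g g' : List Bool → List Bool}
    (l1 : ∀ x, x.length < (f x).length) (l2 : ∀ y, y.length < (g y).length) (z : List Bool)
    (h : bstep f f' g g' z ≠ z) : (bstep f f' g g' z).length < z.length := by
  cases z with
  | nil =>
    exfalso
    have h1 := l1 (f' [])
    unfold bstep at h
    simp only [List.head?_nil, Option.getD_none, Bool.false_eq_true, if_false, List.tail_nil] at h
    have h2 : f (f' []) ≠ [] := by
      intro h3
      rw [h3] at h1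
      simp at h1
    simp [h2] at h
  | cons b w =>
    cases b with
    | true =>
      rw [bstep_true] at h ⊢
      by_cases h1 : g (g' w) = w
      · rw [if_pos h1]
        have := l2 (g' w)
        rw [h1] at this
        simpa using this
      · rw [if_neg h1] at h
        exact absurd rfl h
    | false =>
      rw [bstep_false] at h ⊢
      by_cases h1 : f (f' w) = w
      · rw [if_pos h1]
        have := l1 (f' w)
        rw [h1] at this
        simpa using this
      · rw [if_neg h1] at h
        exact absurd rfl h

/-- a map that shortens every string it moves is stationary after `length` many steps -/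
theorem stab {s : List Bool → List Bool} (hs : ∀ z, s z ≠ z → (s z).length < z.length) :
    ∀ (n : ℕ) (z : List Bool), z.length ≤ n → s (s^[n] z) = s^[n] z := by
  intro n
  induction n with
  | zero =>
    intro z hz
    by_contra h
    have := hs _ h
    simp only [Function.iterate_zero, id_eq] at this
    omega
  | succ n ih =>
    intro z hz
    by_cases h : s z = z
    · have : ∀ m, s^[m] z = z := fun m => Function.iterate_fixed h m
      rw [this, h]
    · rw [Function.iterate_succ_apply]
      have := hs z h
      exact ih (s z) (by omega)

theorem stab_add {s : List Bool → List Bool} (hs : ∀ z, s z ≠ z → (s z).length < z.length)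
    (z : List Bool) (n : ℕ) (hn : z.length ≤ n) : s^[n] z = s^[z.length] z := by
  obtain ⟨m, rfl⟩ := Nat.exists_eq_add_of_le hn
  rw [add_comm, Function.iterate_add_apply]
  exact Function.iterate_fixed (stab hs z.length z le_rfl) m

/-- the start of the chain -/
def broot (s : List Bool → List Bool) (z : List Bool) : List Bool := s^[z.length] z

theorem broot_step {s : List Bool → List Bool} (hs : ∀ z, s z ≠ z → (s z).length < z.length)
    (z : List Bool) : broot s (s z) = broot s z := by
  by_cases h : s z = z
  · rw [h]
  · have h1 := hs z h
    unfold broot
    obtain ⟨n, hn⟩ : ∃ n, z.length = n + 1 := ⟨z.length - 1, by omega⟩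
    rw [hn, Function.iterate_succ_apply]
    exact (stab_add hs (s z) n (by omega)).symm

theorem bstep_len {s : List Bool → List Bool} (hs : ∀ z, s z ≠ z → (s z).length < z.length)
    (i : ℕ) : ∀ z, (s^[i] z).length ≤ z.length := by
  induction i with
  | zero => intro z; simp
  | succ i ih =>
    intro z
    rw [Function.iterate_succ_apply]
    refine (ih _).trans ?_
    by_cases h : s z = z
    · rw [h]
    · exact (hs z h).le

/-- Module BH: polynomial-time Cantor-Bernstein (Berman-Hartmanis). -/
theorem bh {f f' g g' : List Bool → List Bool} (hf : FP f) (hf' : FP f') (hg : FP g) (hg' : FP g')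
    (h1 : ∀ x, f' (f x) = x) (h2 : ∀ y, g' (g y) = y)
    (l1 : ∀ x, x.length < (f x).length) (l2 : ∀ y, y.length < (g y).length) :
    ∃ h k : List Bool → List Bool, FP h ∧ FP k ∧ (∀ x, k (h x) = x) ∧ (∀ y, h (k y) = y) ∧
      ∀ x, h x = f x ∨ g (h x) = x := by
  set s := bstep f f' g g' with hsdef
  have hs : ∀ z, s z ≠ z → (s z).length < z.length := fun z hz => bstep_lt l1 l2 z hz
  have hsf : FP s := bstep_fp hf hf' hg hg'
  have hroot : ∀ b : Bool, FP (fun x => broot s (b :: x)) := by
    intro b
    refine FP.iter hsf (FP.cons b) (FP.cons b) (X + 1) ?_
    intro x i _
    refine (bstep_len hs i _).trans ?_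
    simp
  -- the side on which the chain of a point starts
  have hside : ∀ b : Bool, FPb (fun x => (broot s (b :: x)).head?.getD false) := fun b =>
    FPb.hd.comp (hroot b)
  have e1 : ∀ x, s (false :: f x) = true :: x := by
    intro x
    rw [hsdef, bstep_false, h1, if_pos rfl]
  have e2 : ∀ y, s (true :: g y) = false :: y := by
    intro y
    rw [hsdef, bstep_true, h2, if_pos rfl]
  have r1 : ∀ x, broot s (false :: f x) = broot s (true :: x) := by
    intro x
    rw [← broot_step hs (false :: f x), e1]
  have r2 : ∀ y, broot s (true :: g y) = broot s (false :: y) := by
    intro y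
    rw [← broot_step hs (true :: g y), e2]
  have t1 : ∀ x, (broot s (true :: x)).head?.getD false = false → g (g' x) = x := by
    intro x hx
    by_contra hne
    have h3 : s (true :: x) = true :: x := by
      rw [hsdef, bstep_true, if_neg hne]
    have h4 : broot s (true :: x) = true :: x := Function.iterate_fixed h3 _
    rw [h4] at hx
    simp at hx
  have t2 : ∀ y, (broot s (false :: y)).head?.getD false = true → f (f' y) = y := by
    intro y hy
    by_contra hne
    have h3 : s (false :: y) = false :: y := by
      rw [hsdef, bstep_false, if_neg hne]
    have h4 : broot s (false :: y) = false :: y := Function.iterate_fixed h3 _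
    rw [h4] at hy
    simp at hy
  refine ⟨fun x => if (broot s (true :: x)).head?.getD false then f x else g' x,
    fun y => if (broot s (false :: y)).head?.getD false then f' y else g y,
    FP.ite (hside true) hf hg', FP.ite (hside false) hf' hg, ?_, ?_, ?_⟩
  · intro x
    cases hx : (broot s (true :: x)).head?.getD false with
    | true =>
      simp only [hx, if_true, r1, h1]
    | false =>
      have h3 := t1 x hx
      have h4 : (broot s (false :: g' x)).head?.getD false = false := by
        rw [← r2, h3, hx]
      simp only [hx, Bool.false_eq_true, if_false, h4, h3]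
  · intro y
    cases hy : (broot s (false :: y)).head?.getD false with
    | true =>
      have h3 := t2 y hy
      have h4 : (broot s (true :: f' y)).head?.getD false = true := by
        rw [← r1, h3, hy]
      simp only [hy, if_true, h4, h3]
    | false =>
      simp only [hy, Bool.false_eq_true, if_false, r2, h2]
  · intro x
    cases hx : (broot s (true :: x)).head?.getD false with
    | true =>
      left
      simp only [hx, if_true]
    | false =>
      right
      simp only [hx, Bool.false_eq_true, if_false]
      exact t1 x hx

end Pool.Agent.Work.MP_caf7e3_lc
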