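import Mathlib
import Pool.Agent.Work.MP_caf7e3_lc.StepA
import Pool.Agent.Work.MP_caf7e3_lc.BH

/-!
If ranges of injective polynomial-time functions contain ranges of p-invertible functions then all
numberings in GNPTime are polynomial-time isomorphic.
-/

namespace Pool.Agent.Work.MP_caf7e3_lc

open Pool.Agent.Work.MP_0532f7_lc Nat.Partrec

theorem iso_nu (hs : Star) {E : List Bool → List Bool → List Bool} (hE : Primrec₂ E)
    (hE2 : ∀ k, FP (E k)) (hE3 : ∀ f, FP f → ∃ k, ∀ x, E k x = f x)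
    {φ : List Bool → ℕ →. ℕ} (hφ : GNPTime φ) : PolyIso nu φ := by
  obtain ⟨σ, hσ, hσ'⟩ := hφ.2 nu nu_godel
  obtain ⟨τ, τ', hτ, hτ', hinv, htr⟩ := stepA hs hE hE2 hE3 (PolyTime.fp hσ) hσ'
  obtain ⟨a, ha⟩ := nu_univ hφ.1.1
  obtain ⟨b, hb⟩ := nu_pad
  obtain ⟨P, hP⟩ := hτ'.length
  obtain ⟨c, hc, hc'⟩ := FP.clock P
  obtain ⟨h, k, hh, hk, hkh, hhk, hor⟩ := bh
    (f := fun i => τ (pr b (pr (c i) i))) (f' := fun w => sn (sn (τ' w)))
    (g := fun i => pr a i) (g' := sn)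
    (hτ.comp ((FP.const b).pair (hc.pair FP.id))) hτ'.snd.snd
    ((FP.const a).pair FP.id) FP.snI
    (fun x => by simp only [hinv, sn_pr]) (fun y => by simp only [sn_pr])
    (fun x => by
      by_contra hlt
      have h1 := hP (τ (pr b (pr (c x) x)))
      rw [hinv, pr_length, pr_length, hc'] at h1
      have h2 := pmono P (not_lt.1 hlt)
      omega)
    (fun y => by simp only [pr_length]; omega)
  refine ⟨h, k, FP.polyTime hh, FP.polyTime hk, hkh, hhk, fun i => ?_⟩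
  rcases hor i with h1 | h1
  · rw [h1, ← htr, hb]
  · rw [ha, h1]

theorem iso_of_star (hs : Star) {E : List Bool → List Bool → List Bool} (hE : Primrec₂ E)
    (hE2 : ∀ k, FP (E k)) (hE3 : ∀ f, FP f → ∃ k, ∀ x, E k x = f x)
    {φ ψ : List Bool → ℕ →. ℕ} (hφ : GNPTime φ) (hψ : GNPTime ψ) : PolyIso ψ φ := by
  obtain ⟨h1, k1, hh1, hk1, a1, b1, c1⟩ := iso_nu hs hE hE2 hE3 hψ
  obtain ⟨h2, k2, hh2, hk2, a2, b2, c2⟩ := iso_nu hs hE hE2 hE3 hφ
  refine ⟨fun i => h2 (k1 i), fun i => h1 (k2 i),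
    FP.polyTime ((PolyTime.fp hh2).comp (PolyTime.fp hk1)),
    FP.polyTime ((PolyTime.fp hh1).comp (PolyTime.fp hk2)),
    fun i => by simp only [a2, b1], fun i => by simp only [a1, b2], fun i => ?_⟩
  rw [← c2, c1, b1]

end Pool.Agent.Work.MP_caf7e3_lc
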