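import Mathlib
import Pool.Agent.Work.MP_0532f7_lc.Enum
import Pool.Agent.Work.MP_caf7e3_lc.Prim

/-!
Enumeration of the polynomial-time functions, primitive recursively.
-/

namespace Pool.Agent.Work.MP_caf7e3_lc

open Pool.Agent.Work.MP_0532f7_lc

open Polynomial

/-- the `k`-th polynomial-time function -/
noncomputable def EE (k x : List Bool) : List Bool :=
  (uni (fs k) x (un (x.length ^ (sn k).length + (sn k).length))).tail

theorem uni_len (c x : List Bool) {t t' : List Bool} (h : t.length = t'.length) :
    uni c x t = uni c x t' := by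
  unfold uni urun
  rw [h]

theorem primrec_pow : Primrec₂ (fun a b : ℕ => a ^ b) := by
  have h : Primrec (fun v : ℕ × ℕ => (fun y : ℕ => y * v.1)^[v.2] 1) :=
    Primrec.nat_iterate Primrec.snd (Primrec.const 1)
      (Primrec.nat_mul.comp Primrec.snd (Primrec.fst.comp Primrec.fst))
  refine Primrec.of_eq h (fun v => ?_)
  obtain ⟨a, b⟩ := v
  show (fun y : ℕ => y * a)^[b] 1 = a ^ b
  have : ∀ (b : ℕ) (c : ℕ), (fun y : ℕ => y * a)^[b] c = c * a ^ b := by
    intro b
    induction b with
    | zero => intro c; simp
    | succ b ih => intro c; rw [Function.iterate_succ_apply, ih, pow_succ]; ring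
  rw [this, one_mul]

theorem primrec_un : Primrec un := by
  have h : Primrec (fun n : ℕ => (List.range n).map (fun _ => true)) :=
    Primrec.list_map Primrec.list_range (Primrec.const true)
  refine h.of_eq (fun n => ?_)
  unfold un
  rw [List.map_const', List.length_range]

theorem primrec_pr : Primrec₂ pr := by
  have h : Primrec (fun v : List Bool × List Bool =>
      v.1.foldr (fun b acc => true :: b :: acc) (false :: v.2)) := by
    refine Primrec.list_foldr (α := List Bool × List Bool) (β := Bool) (σ := List Bool)
      (f := fun v => v.1) (g := fun v => false :: v.2) (h := fun _ p => true :: p.1 :: p.2)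
      Primrec.fst (Primrec.list_cons.comp (Primrec.const false) Primrec.snd) ?_
    exact Primrec.list_cons.comp (Primrec.const true)
      (Primrec.list_cons.comp (Primrec.fst.comp Primrec.snd) (Primrec.snd.comp Primrec.snd))
  refine Primrec.of_eq h (fun v => ?_)
  obtain ⟨x, y⟩ := v
  show x.foldr (fun b acc => true :: b :: acc) (false :: y) = pr x y
  induction x with
  | nil => rfl
  | cons b x ih => rw [List.foldr_cons, ih]; rfl

theorem primrec_val : Primrec val := by
  have h : Primrec (fun x : List Bool =>
      x.foldr (fun b acc => (if b then 2 else 1) + 2 * acc) 0) := by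
    refine Primrec.list_foldr (α := List Bool) (β := Bool) (σ := ℕ)
      (f := fun v => v) (g := fun _ => 0) (h := fun _ p => (if p.1 then 2 else 1) + 2 * p.2)
      Primrec.id (Primrec.const 0) ?_
    refine Primrec.nat_add.comp ?_ (Primrec.nat_mul.comp (Primrec.const 2)
      (Primrec.snd.comp Primrec.snd))
    refine (Primrec.cond (Primrec.fst.comp Primrec.snd) (Primrec.const 2)
      (Primrec.const 1)).of_eq (fun v => ?_)
    cases v.2.1 <;> rfl
  refine Primrec.of_eq h (fun x => ?_)
  induction x with
  | nil => rfl
  | cons b x ih => rw [List.foldr_cons, ih]; rfl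

theorem primrec_inc : Primrec inc := FP.primrec FP.incI

theorem primrec_fs : Primrec fs := FP.primrec FP.fsI

theorem primrec_sn : Primrec sn := FP.primrec FP.snI

/-- the universal function on a combined input is polynomial time -/
theorem FP.uniW : FP (fun w => (uni (fs (fs w)) (fs (sn w)) (sn (sn w))).tail) :=
  FP.tail.comp (FP.uniI (FP.fsI.comp FP.fsI) (FP.fsI.comp FP.snI) (FP.snI.comp FP.snI))

theorem EE_primrec : Primrec₂ EE := by
  have h1 : Primrec (fun v : List Bool × List Bool =>
      pr v.1 (pr v.2 (un (v.2.length ^ (sn v.1).length + (sn v.1).length)))) := by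
    refine primrec_pr.comp Primrec.fst (primrec_pr.comp Primrec.snd (primrec_un.comp ?_))
    have hl : Primrec (fun v : List Bool × List Bool => (sn v.1).length) :=
      Primrec.list_length.comp (primrec_sn.comp Primrec.fst)
    exact Primrec.nat_add.comp
      (primrec_pow.comp (Primrec.list_length.comp Primrec.snd) hl) hl
  refine Primrec.of_eq ((FP.primrec FP.uniW).comp h1) (fun v => ?_)
  simp only [fs_pr, sn_pr]
  rfl

theorem EE_fp (k : List Bool) : FP (EE k) := by
  obtain ⟨h, hh, hl⟩ := FP.clock (X ^ (sn k).length + C (sn k).length)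
  refine (FP.tail.comp (FP.uniI (FP.const (fs k)) FP.id hh)).congr (fun x => ?_)
  unfold EE
  rw [uni_len (fs k) x (t := h x) (t' := un (x.length ^ (sn k).length + (sn k).length))]
  rw [hl, un_length]
  simp

/-- every polynomial over `ℕ` is dominated by `n ^ d + d` -/
theorem eval_le_pow (P : Polynomial ℕ) : ∃ d : ℕ, ∀ n : ℕ, P.eval n ≤ n ^ d + d := by
  refine ⟨P.eval 1 + P.natDegree, fun n => ?_⟩
  rcases Nat.lt_or_ge n 1 with hn | hn
  · have := pmono P (a := n) (b := 1) (by omega)
    omega
  · have h1 : P.eval n ≤ P.eval 1 * n ^ P.natDegree := by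
      rw [eval_eq_sum_range, eval_eq_sum_range, Finset.sum_mul]
      refine Finset.sum_le_sum (fun i hi => ?_)
      rw [one_pow, mul_one]
      exact Nat.mul_le_mul_left _ (Nat.pow_le_pow_right hn (by
        have := Finset.mem_range.mp hi; omega))
    rcases Nat.lt_or_ge n 2 with h2 | h2
    · have hn1 : n = 1 := by omega
      subst hn1
      simp only [one_pow, mul_one] at h1 ⊢
      omega
    · have h3 : P.eval 1 ≤ n ^ P.eval 1 :=
        (Nat.lt_two_pow_self).le.trans (Nat.pow_le_pow_left h2 _)
      calc P.eval n ≤ P.eval 1 * n ^ P.natDegree := h1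
        _ ≤ n ^ P.eval 1 * n ^ P.natDegree := Nat.mul_le_mul_right _ h3
        _ = n ^ (P.eval 1 + P.natDegree) := (pow_add _ _ _).symm
        _ ≤ _ := Nat.le_add_right _ _

theorem EE_surj {f : List Bool → List Bool} (hf : FP f) : ∃ k, ∀ x, EE k x = f x := by
  obtain ⟨c, P, h⟩ := uni_spec hf.polyTime
  obtain ⟨d, hd⟩ := eval_le_pow P
  refine ⟨pr c (un d), fun x => ?_⟩
  unfold EE
  rw [fs_pr, sn_pr, un_length, (h x _).1 (by rw [un_length]; exact hd _)]
  rfl

end Pool.Agent.Work.MP_caf7e3_lc
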